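import Pool.Agent.W659.FK.Stm

set_option autoImplicit false
set_option linter.unusedSectionVars false

namespace Pool.Agent.W605.FK

open WeierstrassCurve Pool.Agent.H901R3.MS

section count

variable {p : ℕ} [Fact p.Prime] {k : Type} [Field k] [Fintype k] [CharP k p]

theorem two_ne (hp : 2 < p) (F : Type) [Field F] [CharP F p] : (2 : F) ≠ 0 := by
  intro h
  have h1 : ((2 : ℕ) : F) = 0 := by exact_mod_cast h
  rw [CharP.cast_eq_zero_iff F p] at h1
  exact absurd (Nat.le_of_dvd (by norm_num) h1) (by omega)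

theorem odd_p (hp : 2 < p) : Odd p := (Fact.out : p.Prime).odd_of_ne_two (by omega)

theorem exists_of_pow (ι : ZMod p →+* k) {x : k} (hx : x ^ p = x) : ∃ d : ZMod p, ι d = x := by
  have h1 : x ∈ (⊥ : Subfield k) := (Subfield.mem_bot_iff_pow_eq_self k p).mpr hx
  obtain ⟨n, hn⟩ := (mem_bot_iff_intCast p k).mp h1
  exact ⟨(n : ZMod p), by rw [map_intCast, hn]⟩

theorem pow_of (ι : ZMod p →+* k) (d : ZMod p) : ι d ^ p = ι d := by
  rw [← map_pow, ZMod.pow_card]

theorem neg_eq_self_iff' (hp : 2 < p) {F : Type} [Field F] [CharP F p] {y : F} (h : y = -y) :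
    y = 0 := by
  have h1 : 2 * y = 0 := by linear_combination h
  exact (mul_eq_zero.mp h1).resolve_left (two_ne hp F)

theorem exists_sqrt (hp : 2 < p) (hk : Fintype.card k = p ^ 2) (ι : ZMod p →+* k) {c : ZMod p}
    (hc : c ≠ 0) : ∃ y : k, y ^ 2 = ι c := by
  have hchar : ringChar k ≠ 2 := by
    rw [ringChar.eq k p]; omega
  have hc' : ι c ≠ 0 := (map_ne_zero ι).mpr hc
  have h1 : IsSquare (ι c) := by
    rw [FiniteField.isSquare_iff hchar hc', hk]
    obtain ⟨m, hm⟩ := odd_p hp
    have e1 : p ^ 2 / 2 = (p - 1) * (m + 1) := by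
      rw [hm]
      have : (2 * m + 1) ^ 2 = 2 * (2 * m * (m + 1)) + 1 := by ring
      rw [this]
      simp only [Nat.add_sub_cancel]
      omega
    rw [e1, pow_mul, ← map_pow, ZMod.pow_card_sub_one_eq_one hc, map_one, one_pow]
  obtain ⟨y, hy⟩ := h1
  exact ⟨y, by rw [hy]; ring⟩

theorem two_count (hp : 2 < p) (hk : Fintype.card k = p ^ 2) (ι : ZMod p →+* k) (c : ZMod p) :
    {y : ZMod p | y ^ 2 = c}.ncard + {y : k | y ^ 2 = ι c ∧ y ^ p = -y}.ncard = 2 := by
  have hodd := odd_p hp
  have hinj : Function.Injective ι := ι.injective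
  by_cases hc : c = 0
  · subst hc
    have e1 : {y : ZMod p | y ^ 2 = 0} = {0} := by
      ext y; simp
    have e2 : {y : k | y ^ 2 = ι 0 ∧ y ^ p = -y} = {0} := by
      ext y
      simp only [map_zero, Set.mem_ofPred_eq, Set.mem_singleton_iff]
      constructor
      · rintro ⟨h, -⟩
        simpa using h
      · rintro rfl
        simp [(Fact.out : p.Prime).ne_zero]
    rw [e1, e2, Set.ncard_singleton, Set.ncard_singleton]
  · obtain ⟨y0, hy0⟩ := exists_sqrt hp hk ι hc
    have hy00 : y0 ≠ 0 := by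
      rintro rfl
      apply hc
      apply hinj
      rw [← hy0, map_zero]
      simp
    have hne : y0 ≠ -y0 := fun h => hy00 (neg_eq_self_iff' hp h)
    have hdich : y0 ^ p = y0 ∨ y0 ^ p = -y0 := by
      apply sq_eq_sq_iff_eq_or_eq_neg.mp
      rw [← pow_mul, mul_comm, pow_mul, hy0, pow_of]
    have hall : ∀ y : k, y ^ 2 = ι c → y = y0 ∨ y = -y0 := fun y hy =>
      sq_eq_sq_iff_eq_or_eq_neg.mp (hy.trans hy0.symm)
    rcases hdich with hd | hd
    · obtain ⟨d, hdd⟩ := exists_of_pow ι hd
      have hd0 : d ≠ -d := by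
        intro h
        apply hne
        rw [← hdd, ← map_neg, ← h]
      have hdc : d ^ 2 = c := by
        apply hinj
        rw [map_pow, hdd, hy0]
      have e1 : {y : ZMod p | y ^ 2 = c} = {d, -d} := by
        ext y
        simp only [Set.mem_ofPred_eq, Set.mem_insert_iff, Set.mem_singleton_iff]
        rw [← hdc]
        exact sq_eq_sq_iff_eq_or_eq_neg
      have e2 : {y : k | y ^ 2 = ι c ∧ y ^ p = -y} = ∅ := by
        ext y
        simp only [Set.mem_ofPred_eq, Set.mem_empty_iff_false, iff_false, not_and]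
        intro h1 h2
        have h3 : y ^ p = y := by
          rcases hall y h1 with rfl | rfl
          · exact hd
          · rw [hodd.neg_pow, hd]
        have h4 : y = 0 := neg_eq_self_iff' hp (h3.symm.trans h2)
        rcases hall y h1 with h | h
        · exact hy00 (by rw [← h, h4])
        · exact hy00 (by rw [← neg_eq_zero, ← h, h4])
      rw [e1, e2, Set.ncard_pair hd0, Set.ncard_empty]
    · have e1 : {y : ZMod p | y ^ 2 = c} = ∅ := by
        ext y
        simp only [Set.mem_ofPred_eq, Set.mem_empty_iff_false, iff_false]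
        intro h1
        have h2 : (ι y) ^ 2 = ι c := by rw [← map_pow, h1]
        have h3 := pow_of ι y
        have h4 : y0 ^ p = y0 := by
          rcases hall _ h2 with h | h
          · rw [← h]; exact h3
          · have h5 : y0 = ι (-y) := by rw [map_neg, h, neg_neg]
            rw [h5]; exact pow_of ι _
        exact hne (h4.symm.trans hd)
      have e2 : {y : k | y ^ 2 = ι c ∧ y ^ p = -y} = {y0, -y0} := by
        ext y
        simp only [Set.mem_ofPred_eq, Set.mem_insert_iff, Set.mem_singleton_iff]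
        constructor
        · rintro ⟨h1, -⟩
          exact hall y h1
        · rintro (rfl | rfl)
          · exact ⟨hy0, hd⟩
          · exact ⟨by rw [neg_sq, hy0], by rw [hodd.neg_pow, hd]⟩
      rw [e1, e2, Set.ncard_pair hne, Set.ncard_empty]

theorem count_minus (hp : 2 < p) (hk : Fintype.card k = p ^ 2) (ι : ZMod p →+* k)
    (f : ZMod p → ZMod p) (hf : Nat.card {z : ZMod p × ZMod p // z.2 ^ 2 = f z.1} = p) :
    Nat.card {z : ZMod p × k // z.2 ^ 2 = ι (f z.1) ∧ z.2 ^ p = -z.2} = p := by
  have h1 : Nat.card {z : ZMod p × ZMod p // z.2 ^ 2 = f z.1}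
      = ∑ x : ZMod p, {y : ZMod p | y ^ 2 = f x}.ncard := by
    rw [Nat.card_congr (Equiv.subtypeProdEquivSigmaSubtype fun x y : ZMod p => y ^ 2 = f x),
      Nat.card_sigma]
    rfl
  have h2 : Nat.card {z : ZMod p × k // z.2 ^ 2 = ι (f z.1) ∧ z.2 ^ p = -z.2}
      = ∑ x : ZMod p, {y : k | y ^ 2 = ι (f x) ∧ y ^ p = -y}.ncard := by
    rw [Nat.card_congr (Equiv.subtypeProdEquivSigmaSubtype
      fun (x : ZMod p) (y : k) => y ^ 2 = ι (f x) ∧ y ^ p = -y), Nat.card_sigma]
    rfl
  have h3 : (∑ x : ZMod p, {y : ZMod p | y ^ 2 = f x}.ncard)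
      + ∑ x : ZMod p, {y : k | y ^ 2 = ι (f x) ∧ y ^ p = -y}.ncard = p * 2 := by
    rw [← Finset.sum_add_distrib, Finset.sum_congr rfl fun x _ => two_count hp hk ι (f x)]
    rw [Finset.sum_const, Finset.card_univ, ZMod.card, smul_eq_mul]
  omega

end count

/-- the curve over `ℤ` -/
def WZ (a b : ℤ) : WeierstrassCurve.Affine ℤ := (⟨0, 0, 0, a, b⟩ : WeierstrassCurve ℤ)

theorem base_eq (a b : ℤ) (F : Type) [Field F] :
    CV (a : F) (b : F) = WeierstrassCurve.baseChange (WZ a b) F := by
  simp [WeierstrassCurve.baseChange, WeierstrassCurve.map, CV, WZ]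

theorem ns {a b : ℤ} {F : Type} [Field F] (h : Disc (a : F) (b : F)) {x y : F} :
    (WeierstrassCurve.baseChange (WZ a b) F).toAffine.Nonsingular x y ↔
      y ^ 2 = x ^ 3 + a * x + b := by
  have := nonsingular_iff (x := x) (y := y) h
  rw [base_eq] at this
  exact this

theorem neg_base {a b : ℤ} {F : Type} [Field F] {x y : F} :
    (WeierstrassCurve.baseChange (WZ a b) F).toAffine.negY x y = -y := by
  rw [← base_eq]
  simp [Affine.negY, CV]

theorem disc_of {p : ℕ} [Fact p.Prime] (hp : 2 < p) {a b : ℤ}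
    (hd : ¬ (p : ℤ) ∣ 4 * a ^ 3 + 27 * b ^ 2) (F : Type) [Field F] [CharP F p] :
    Disc (a : F) (b : F) := by
  unfold Disc
  refine mul_ne_zero (two_ne hp F) ?_
  intro h
  apply hd
  rw [← CharP.intCast_eq_zero_iff F p]
  push_cast
  exact h

section group

variable {p : ℕ} [Fact p.Prime] {k : Type} [Field k] [Fintype k] [CharP k p] [DecidableEq k]

/-- points of the curve over `k` -/
abbrev EP (a b : ℤ) (F : Type) [Field F] : Type :=
  (WeierstrassCurve.baseChange (WZ a b) F).toAffine.Point

/-- the Frobenius endomorphism -/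
noncomputable def fro (p : ℕ) [Fact p.Prime] (k : Type) [Field k] [CharP k p] [DecidableEq k]
    (a b : ℤ) : EP a b k →+ EP a b k :=
  Affine.Point.map (W' := WZ a b) (S := ℤ) ((frobenius k p).toIntAlgHom)

theorem fro_some {a b : ℤ} {x y : k}
    (h : (WeierstrassCurve.baseChange (WZ a b) k).toAffine.Nonsingular x y) :
    ∃ h', fro p k a b (Affine.Point.some x y h) = Affine.Point.some (x ^ p) (y ^ p) h' :=
  ⟨_, rfl⟩

theorem card_E {a b : ℤ} (hp : 2 < p) (hd : ¬ (p : ℤ) ∣ 4 * a ^ 3 + 27 * b ^ 2)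
    (hcard : Nat.card {z : ZMod p × ZMod p // z.2 ^ 2 = z.1 ^ 3 + a * z.1 + b} = p)
    (Q : EP a b (ZMod p)) : (p + 1) • Q = 0 := by
  have hD : Disc (a : ZMod p) (b : ZMod p) := disc_of hp hd (ZMod p)
  have hfin2 : Finite (EP a b (ZMod p)) := by
    have : Finite (WithZero {xy : ZMod p × ZMod p //
      (WeierstrassCurve.baseChange (WZ a b) (ZMod p)).toAffine.Nonsingular xy.1 xy.2}) :=
      inferInstanceAs (Finite (Option _))
    exact Finite.of_equiv _ (WeierstrassCurve.Affine.nonsingularPointEquiv _).symm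
  have h1 : Nat.card (EP a b (ZMod p)) = p + 1 := by
    rw [Nat.card_congr (WeierstrassCurve.Affine.nonsingularPointEquiv _)]
    have h2 : Nat.card (WithZero {xy : ZMod p × ZMod p //
        (WeierstrassCurve.baseChange (WZ a b) (ZMod p)).toAffine.Nonsingular xy.1 xy.2}) =
        Nat.card {xy : ZMod p × ZMod p //
        (WeierstrassCurve.baseChange (WZ a b) (ZMod p)).toAffine.Nonsingular xy.1 xy.2} + 1 :=
      Finite.card_option
    rw [h2]
    congr 1
    refine Eq.trans ?_ hcard
    apply Nat.card_congr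
    exact Equiv.subtypeEquivRight (fun z => ns hD)
  rw [← h1]
  exact card_nsmul_eq_zero'

theorem fixed {a b : ℤ} (hp : 2 < p) (hd : ¬ (p : ℤ) ∣ 4 * a ^ 3 + 27 * b ^ 2)
    (hcard : Nat.card {z : ZMod p × ZMod p // z.2 ^ 2 = z.1 ^ 3 + a * z.1 + b} = p)
    (ι : ZMod p →+* k) (Q : EP a b k) (hQ : fro p k a b Q = Q) : (p + 1) • Q = 0 := by
  rcases Q with _ | ⟨x, y, h⟩
  · exact smul_zero _
  · obtain ⟨h', e⟩ := fro_some (p := p) h
    rw [e] at hQ
    obtain ⟨hx, hy⟩ := Affine.Point.some.inj hQ
    obtain ⟨x0, rfl⟩ := exists_of_pow ι hx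
    obtain ⟨y0, rfl⟩ := exists_of_pow ι hy
    have hD : Disc (a : k) (b : k) := disc_of hp hd k
    have hD0 : Disc (a : ZMod p) (b : ZMod p) := disc_of hp hd (ZMod p)
    have h0 : (WeierstrassCurve.baseChange (WZ a b) (ZMod p)).toAffine.Nonsingular x0 y0 := by
      rw [ns hD0]
      rw [ns hD] at h
      apply ι.injective
      simpa using h
    have e2 : (Affine.Point.some (ι x0) (ι y0) h : EP a b k) =
        Affine.Point.map (W' := WZ a b) (S := ℤ) (ι.toIntAlgHom) (Affine.Point.some x0 y0 h0) := rfl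
    rw [e2, ← map_nsmul, card_E hp hd hcard, map_zero]

theorem antifixed {a b : ℤ} (hp : 2 < p) (hk : Fintype.card k = p ^ 2)
    (hd : ¬ (p : ℤ) ∣ 4 * a ^ 3 + 27 * b ^ 2)
    (hcard : Nat.card {z : ZMod p × ZMod p // z.2 ^ 2 = z.1 ^ 3 + a * z.1 + b} = p)
    (ι : ZMod p →+* k) (Q : EP a b k) (hQ : fro p k a b Q = -Q) : (p + 1) • Q = 0 := by
  have hD : Disc (a : k) (b : k) := disc_of hp hd k
  set H : AddSubgroup (EP a b k) := (fro p k a b + AddMonoidHom.id _).ker with hH
  have hmem : ∀ P : EP a b k, P ∈ H ↔ fro p k a b P = -P := by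
    intro P
    rw [hH, AddMonoidHom.mem_ker, AddMonoidHom.add_apply, AddMonoidHom.id_apply,
      add_eq_zero_iff_eq_neg]
  have hfin : Finite (EP a b k) := by
    have : Finite (WithZero {xy : k × k //
      (WeierstrassCurve.baseChange (WZ a b) k).toAffine.Nonsingular xy.1 xy.2}) :=
      inferInstanceAs (Finite (Option _))
    exact Finite.of_equiv _ (WeierstrassCurve.Affine.nonsingularPointEquiv _).symm
  have p0 : fro p k a b (Affine.Point.zero) = -Affine.Point.zero := rfl
  have hcard2 : Nat.card H = p + 1 := by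
    have e1 : Nat.card H = Nat.card {P : EP a b k // fro p k a b P = -P} :=
      Nat.card_congr (Equiv.subtypeEquivRight hmem)
    rw [e1, Nat.card_congr (Affine.nonsingularPointEquivSubtype
      (p := fun P : EP a b k => fro p k a b P = -P) p0)]
    have h2 : Nat.card (WithZero {xy : k × k //
        ∃ h : (WeierstrassCurve.baseChange (WZ a b) k).toAffine.Nonsingular xy.1 xy.2,
          fro p k a b (Affine.Point.some _ _ h) = -Affine.Point.some _ _ h}) =
        Nat.card {xy : k × k //
        ∃ h : (WeierstrassCurve.baseChange (WZ a b) k).toAffine.Nonsingular xy.1 xy.2,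
          fro p k a b (Affine.Point.some _ _ h) = -Affine.Point.some _ _ h} + 1 :=
      Finite.card_option
    refine h2.trans ?_
    congr 1
    refine Eq.trans ?_ (count_minus hp hk ι (fun x => x ^ 3 + a * x + b) hcard)
    symm
    have key : ∀ x y : k, (∃ h : (WeierstrassCurve.baseChange (WZ a b) k).toAffine.Nonsingular x y,
          fro p k a b (Affine.Point.some _ _ h) = -Affine.Point.some _ _ h) ↔
          (y ^ 2 = x ^ 3 + a * x + b ∧ x ^ p = x ∧ y ^ p = -y) := by
      intro x y
      constructor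
      · rintro ⟨h, e⟩
        obtain ⟨h', e'⟩ := fro_some (p := p) h
        rw [e', Affine.Point.neg_some] at e
        obtain ⟨e3, e4⟩ := Affine.Point.some.inj e
        rw [neg_base] at e4
        exact ⟨(ns hD).mp h, e3, e4⟩
      · rintro ⟨h1, h2, h3⟩
        have h : (WeierstrassCurve.baseChange (WZ a b) k).toAffine.Nonsingular x y := (ns hD).mpr h1
        refine ⟨h, ?_⟩
        obtain ⟨h', e'⟩ := fro_some (p := p) h
        rw [e', Affine.Point.neg_some]
        have h4 : y ^ p = (WeierstrassCurve.baseChange (WZ a b) k).toAffine.negY x y := by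
          rw [neg_base, h3]
        congr 1
    refine Nat.card_congr (Equiv.ofBijective
      (fun z : {z : ZMod p × k // z.2 ^ 2 = ι (z.1 ^ 3 + a * z.1 + b) ∧ z.2 ^ p = -z.2} =>
        ⟨(ι z.1.1, z.1.2), (key _ _).mpr ⟨by have := z.2.1; simpa using this, pow_of ι _, z.2.2⟩⟩)
      ⟨?_, ?_⟩)
    · rintro ⟨⟨x, y⟩, h1⟩ ⟨⟨x', y'⟩, h2⟩ h
      simp only [Subtype.mk.injEq, Prod.mk.injEq] at h
      simp only [Subtype.mk.injEq, Prod.mk.injEq]
      exact ⟨ι.injective h.1, h.2⟩
    · rintro ⟨⟨x, y⟩, h⟩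
      obtain ⟨h1, h2, h3⟩ := (key x y).mp h
      obtain ⟨x0, rfl⟩ := exists_of_pow ι h2
      exact ⟨⟨(x0, y), by simpa using h1, h3⟩, rfl⟩
  have h3 : (p + 1) • (⟨Q, (hmem Q).mpr hQ⟩ : H) = 0 := by
    rw [← hcard2]
    exact card_nsmul_eq_zero'
  have h4 := congrArg (fun z : H => (z : EP a b k)) h3
  simpa using h4

end group

theorem main : Pool.Agent.W659.FK.S_KILL := by
  intro p hpf a b hp hd hcard k _ _ _ hk P
  have hchar : CharP k p := by
    rcases hk with hk | hk
    · exact charP_of_card_eq_prime hk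
    · exact charP_of_card_eq_prime_pow hk
  let ι : ZMod p →+* k := ZMod.castHom (dvd_refl p) k
  have hmain : ∀ P : EP a b k, (2 * (p + 1)) • P = 0 := by
    intro P
    have hff : fro p k a b (fro p k a b P) = P := by
      have hx : ∀ x : k, (x ^ p) ^ p = x := by
        intro x
        rcases hk with hk | hk
        · have : x ^ p = x := by rw [← hk]; exact FiniteField.pow_card x
          rw [this, this]
        · rw [← pow_mul, ← sq, ← hk]; exact FiniteField.pow_card x
      rcases P with _ | ⟨x, y, h⟩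
      · rfl
      · obtain ⟨h', e'⟩ := fro_some (p := p) h
        obtain ⟨h'', e''⟩ := fro_some (p := p) h'
        rw [e', e'']
        have e1 := hx x
        have e2 := hx y
        congr 1
    set S := P + fro p k a b P with hS
    have hSf : fro p k a b S = S := by
      rw [hS, map_add, hff, add_comm]
    have h1 := fixed hp hd hcard ι S hSf
    rcases hk with hk | hk
    · have hid : fro p k a b P = P := by
        rcases P with _ | ⟨x, y, h⟩
        · rfl
        · obtain ⟨h', e'⟩ := fro_some (p := p) h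
          rw [e']
          have e1 : x ^ p = x := by rw [← hk]; exact FiniteField.pow_card x
          have e2 : y ^ p = y := by rw [← hk]; exact FiniteField.pow_card y
          congr 1
      have h2 : S = 2 • P := by rw [hS, hid, two_nsmul]
      rw [h2, ← mul_nsmul] at h1
      exact h1
    · set D := P - fro p k a b P with hDd
      have hDf : fro p k a b D = -D := by
        rw [hDd, map_sub, hff]; abel
      have h2 := antifixed hp hk hd hcard ι D hDf
      have h3 : 2 • P = S + D := by rw [hS, hDd, two_nsmul]; abel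
      rw [mul_nsmul, h3, nsmul_add, h1, h2, add_zero]
  revert P
  unfold Pt
  rw [base_eq]
  exact hmain

end Pool.Agent.W605.FK
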